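import Mathlib

/-!
Birkhoff pointwise ergodic theorem for bounded measurable functions on a probability space
(measure preserving maps, not necessarily invertible), through the maximal lemma of Garsia.
-/

set_option autoImplicit false

open MeasureTheory Filter Topology Finset

namespace Pool.Agent.Shared.Ergodic

variable {X : Type*} [MeasurableSpace X] {μ : Measure X}

/-- running maximum of the ergodic sums (including the empty sum) -/
noncomputable def runMax (T : X → X) (f : X → ℝ) : ℕ → X → ℝ
  | 0 => fun _ => 0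
  | N + 1 => fun x => max 0 (f x + runMax T f N (T x))

omit [MeasurableSpace X] in
lemma runMax_nonneg (T : X → X) (f : X → ℝ) (N : ℕ) (x : X) : 0 ≤ runMax T f N x := by
  cases N with
  | zero => exact le_rfl
  | succ N => exact le_max_left _ _

omit [MeasurableSpace X] in
lemma runMax_mono (T : X → X) (f : X → ℝ) (N : ℕ) :
    ∀ x, runMax T f N x ≤ runMax T f (N + 1) x := by
  induction N with
  | zero => intro x; exact le_max_left _ _
  | succ N ih =>
    intro x
    exact max_le_max le_rfl (by linarith [ih (T x)])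

omit [MeasurableSpace X] in
lemma sum_le_runMax (T : X → X) (f : X → ℝ) (N : ℕ) :
    ∀ x, ∑ n ∈ range N, f (T^[n] x) ≤ runMax T f N x := by
  induction N with
  | zero => intro x; simp [runMax]
  | succ N ih =>
    intro x
    rw [Finset.sum_range_succ']
    have := ih (T x)
    simp only [Function.iterate_succ, Function.comp_apply, Function.iterate_zero, id_eq]
    refine le_trans ?_ (le_max_right _ _)
    linarith

omit [MeasurableSpace X] in
lemma runMax_le (T : X → X) (f : X → ℝ) (C : ℝ) (hC : ∀ x, |f x| ≤ C) (N : ℕ) :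
    ∀ x, runMax T f N x ≤ N * C := by
  induction N with
  | zero => intro x; simp [runMax]
  | succ N ih =>
    intro x
    have h0 : 0 ≤ C := le_trans (abs_nonneg _) (hC x)
    have h1 := ih (T x)
    have h2 := (abs_le.1 (hC x)).2
    refine max_le (by positivity) ?_
    push_cast
    linarith

lemma measurable_runMax {T : X → X} (hT : Measurable T) {f : X → ℝ} (hf : Measurable f)
    (N : ℕ) : Measurable (runMax T f N) := by
  induction N with
  | zero => exact measurable_const
  | succ N ih => exact measurable_const.max (hf.add (ih.comp hT))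

lemma integrable_of_bdd [IsFiniteMeasure μ] {f : X → ℝ} (hf : Measurable f) (C : ℝ)
    (hC : ∀ x, |f x| ≤ C) : Integrable f μ :=
  Integrable.of_bound hf.aestronglyMeasurable C (Eventually.of_forall hC)

/-- Garsia lemma, finite form -/
lemma garsia [IsFiniteMeasure μ] {T : X → X} (hT : MeasurePreserving T μ μ) {f : X → ℝ}
    (hf : Measurable f) (C : ℝ) (hC : ∀ x, |f x| ≤ C) (N : ℕ) :
    0 ≤ ∫ x, Set.indicator {x | 0 < runMax T f (N + 1) x} f x ∂μ := by
  have hm : ∀ N, Measurable (runMax T f N) := measurable_runMax hT.measurable hf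
  have hi : ∀ N, Integrable (runMax T f N) μ := fun N =>
    integrable_of_bdd (hm N) (N * C) fun x => by
      rw [abs_of_nonneg (runMax_nonneg T f N x)]; exact runMax_le T f C hC N x
  have hiT : Integrable (fun x => runMax T f N (T x)) μ :=
    (hT.integrable_comp_of_integrable (hi N))
  have hs : MeasurableSet {x | 0 < runMax T f (N + 1) x} := measurableSet_lt measurable_const (hm _)
  have key : ∀ x, runMax T f (N + 1) x - runMax T f N (T x) ≤
      Set.indicator {x | 0 < runMax T f (N + 1) x} f x := by
    intro x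
    by_cases hx : 0 < runMax T f (N + 1) x
    · rw [Set.indicator_of_mem (by exact hx)]
      have : runMax T f (N + 1) x = f x + runMax T f N (T x) := by
        have h1 : runMax T f (N + 1) x = max 0 (f x + runMax T f N (T x)) := rfl
        rw [h1] at hx ⊢
        rcases le_total 0 (f x + runMax T f N (T x)) with h | h
        · exact max_eq_right h
        · rw [max_eq_left h] at hx; exact absurd hx (lt_irrefl _)
      linarith
    · rw [Set.indicator_of_notMem (by exact hx)]
      have := runMax_nonneg T f N (T x)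
      push Not at hx
      linarith
  have h1 : ∫ x, runMax T f N (T x) ∂μ = ∫ x, runMax T f N x ∂μ := by
    have := integral_map (μ := μ) hT.measurable.aemeasurable (f := runMax T f N)
      (hm N).aestronglyMeasurable
    rw [hT.map_eq] at this
    exact this.symm
  have h2 : ∫ x, runMax T f N x ∂μ ≤ ∫ x, runMax T f (N + 1) x ∂μ :=
    integral_mono (hi _) (hi _) (runMax_mono T f N)
  have h3 : ∫ x, (runMax T f (N + 1) x - runMax T f N (T x)) ∂μ ≤
      ∫ x, Set.indicator {x | 0 < runMax T f (N + 1) x} f x ∂μ :=
    integral_mono ((hi _).sub hiT) ((integrable_of_bdd hf C hC).indicator hs) key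
  rw [integral_sub (hi _) hiT] at h3
  linarith

/-- if every point has a positive ergodic sum, the integral is nonnegative -/
lemma integral_nonneg_of_sum_pos [IsFiniteMeasure μ] {T : X → X} (hT : MeasurePreserving T μ μ)
    {f : X → ℝ} (hf : Measurable f) (C : ℝ) (hC : ∀ x, |f x| ≤ C)
    (h : ∀ x, ∃ N, 0 < ∑ n ∈ range N, f (T^[n] x)) : 0 ≤ ∫ x, f x ∂μ := by
  have hm : ∀ N, Measurable (runMax T f N) := measurable_runMax hT.measurable hf
  have hlim : Tendsto (fun N => ∫ x, Set.indicator {x | 0 < runMax T f (N + 1) x} f x ∂μ) atTop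
      (𝓝 (∫ x, f x ∂μ)) := by
    refine tendsto_integral_of_dominated_convergence (fun _ => C) (fun N => ?_)
      (integrable_const C) (fun N => Eventually.of_forall fun x => ?_)
      (Eventually.of_forall fun x => ?_)
    · exact (hf.indicator (measurableSet_lt measurable_const (hm _))).aestronglyMeasurable
    · rw [Real.norm_eq_abs]
      by_cases hx : x ∈ {x | 0 < runMax T f (N + 1) x}
      · rw [Set.indicator_of_mem hx]; exact hC x
      · rw [Set.indicator_of_notMem hx, abs_zero]; exact le_trans (abs_nonneg _) (hC x)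
    · obtain ⟨N₀, hN₀⟩ := h x
      have hmono : Monotone fun N => runMax T f N x :=
        monotone_nat_of_le_succ fun N => runMax_mono T f N x
      refine tendsto_const_nhds.congr' ?_
      filter_upwards [eventually_ge_atTop N₀] with N hN
      rw [Set.indicator_of_mem]
      exact lt_of_lt_of_le hN₀ (le_trans (sum_le_runMax T f N₀ x) (hmono (by omega)))
  exact ge_of_tendsto' hlim fun N => garsia hT hf C hC N

/-- ergodic average -/
noncomputable def avg (T : X → X) (f : X → ℝ) (x : X) (N : ℕ) : ℝ :=
  (N : ℝ)⁻¹ * ∑ n ∈ range N, f (T^[n] x)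

omit [MeasurableSpace X] in
lemma abs_avg_le (T : X → X) {f : X → ℝ} (C : ℝ) (hC : ∀ x, |f x| ≤ C) (x : X) (N : ℕ) :
    |avg T f x N| ≤ C := by
  have h0 : 0 ≤ C := le_trans (abs_nonneg _) (hC x)
  rcases Nat.eq_zero_or_pos N with rfl | hN
  · simpa [avg] using h0
  have hN' : (0 : ℝ) < N := by exact_mod_cast hN
  rw [avg, abs_mul, abs_inv, abs_of_pos hN', inv_mul_le_iff₀ hN']
  calc |∑ n ∈ range N, f (T^[n] x)| ≤ ∑ n ∈ range N, |f (T^[n] x)| := abs_sum_le_sum_abs _ _
    _ ≤ ∑ _n ∈ range N, C := sum_le_sum fun n _ => hC _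
    _ = N * C := by simp

lemma measurable_avg {T : X → X} (hT : Measurable T) {f : X → ℝ} (hf : Measurable f) (N : ℕ) :
    Measurable fun x => avg T f x N :=
  measurable_const.mul (Finset.measurable_sum _ fun n _ => hf.comp (hT.iterate n))

/-- upper limit of the ergodic averages -/
noncomputable def upper (T : X → X) (f : X → ℝ) (x : X) : ℝ := limsup (avg T f x) atTop

lemma measurable_upper {T : X → X} (hT : Measurable T) {f : X → ℝ} (hf : Measurable f) :
    Measurable (upper T f) :=
  Measurable.limsup (measurable_avg hT hf)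

omit [MeasurableSpace X] in
lemma bddAbove_avg (T : X → X) {f : X → ℝ} (C : ℝ) (hC : ∀ x, |f x| ≤ C) (x : X) :
    IsBoundedUnder (· ≤ ·) atTop (avg T f x) :=
  isBoundedUnder_of ⟨C, fun N => (abs_le.1 (abs_avg_le T C hC x N)).2⟩

omit [MeasurableSpace X] in
lemma bddBelow_avg (T : X → X) {f : X → ℝ} (C : ℝ) (hC : ∀ x, |f x| ≤ C) (x : X) :
    IsBoundedUnder (· ≥ ·) atTop (avg T f x) :=
  isBoundedUnder_of ⟨-C, fun N => (abs_le.1 (abs_avg_le T C hC x N)).1⟩

omit [MeasurableSpace X] in
lemma abs_upper_le (T : X → X) {f : X → ℝ} (C : ℝ) (hC : ∀ x, |f x| ≤ C) (x : X) :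
    |upper T f x| ≤ C := by
  rw [abs_le]
  constructor
  · exact le_limsup_of_frequently_le
      (Frequently.of_forall fun N => (abs_le.1 (abs_avg_le T C hC x N)).1) (bddAbove_avg T C hC x)
  · exact limsup_le_of_le (bddBelow_avg T C hC x).isCoboundedUnder_le
      (Eventually.of_forall fun N => (abs_le.1 (abs_avg_le T C hC x N)).2)

omit [MeasurableSpace X] in
lemma tendsto_avg_shift (T : X → X) {f : X → ℝ} (C : ℝ) (hC : ∀ x, |f x| ≤ C) (x : X) :
    Tendsto (fun N => avg T f (T x) N - avg T f x N) atTop (𝓝 0) := by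
  have h1 : ∀ N : ℕ, avg T f (T x) N - avg T f x N = (N : ℝ)⁻¹ * (f (T^[N] x) - f x) := by
    intro N
    have h2 := Finset.sum_range_succ' (fun n => f (T^[n] x)) N
    rw [Finset.sum_range_succ] at h2
    simp only [Function.iterate_succ, Function.comp_apply, Function.iterate_zero, id_eq] at h2
    simp only [avg]
    rw [← mul_sub]
    congr 1
    linarith
  simp_rw [h1]
  have h2 : Tendsto (fun N : ℕ => (N : ℝ)⁻¹ * (2 * C)) atTop (𝓝 0) := by
    simpa using (tendsto_inv_atTop_nhds_zero_nat (𝕜 := ℝ)).mul_const (2 * C)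
  refine squeeze_zero_norm (fun N => ?_) h2
  rw [norm_mul, Real.norm_eq_abs, Real.norm_eq_abs, abs_of_nonneg (by positivity)]
  refine mul_le_mul_of_nonneg_left ?_ (by positivity)
  calc |f (T^[N] x) - f x| ≤ |f (T^[N] x)| + |f x| := abs_sub _ _
    _ ≤ 2 * C := by linarith [hC (T^[N] x), hC x]

lemma limsup_le_of_sub_tendsto {u v : ℕ → ℝ} (C : ℝ) (hu : ∀ n, |u n| ≤ C) (hv : ∀ n, |v n| ≤ C)
    (h : Tendsto (fun n => u n - v n) atTop (𝓝 0)) : limsup u atTop ≤ limsup v atTop := by
  refine le_of_forall_pos_le_add fun ε hε => ?_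
  have hvb : IsBoundedUnder (· ≤ ·) atTop v := isBoundedUnder_of ⟨C, fun N => (abs_le.1 (hv N)).2⟩
  have hub : IsBoundedUnder (· ≥ ·) atTop u :=
    isBoundedUnder_of ⟨-C, fun N => (abs_le.1 (hu N)).1⟩
  refine limsup_le_of_le hub.isCoboundedUnder_le ?_
  have h1 : ∀ᶠ n in atTop, v n < limsup v atTop + ε / 2 :=
    eventually_lt_of_limsup_lt (by linarith) hvb
  have h2 : ∀ᶠ n in atTop, u n - v n < ε / 2 := h.eventually (gt_mem_nhds (by linarith))
  filter_upwards [h1, h2] with n a b
  linarith

omit [MeasurableSpace X] in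
lemma upper_shift (T : X → X) {f : X → ℝ} (C : ℝ) (hC : ∀ x, |f x| ≤ C) (x : X) :
    upper T f (T x) = upper T f x := by
  apply le_antisymm
  · exact limsup_le_of_sub_tendsto C (abs_avg_le T C hC _) (abs_avg_le T C hC _)
      (tendsto_avg_shift T C hC x)
  · refine limsup_le_of_sub_tendsto C (abs_avg_le T C hC _) (abs_avg_le T C hC _) ?_
    have := (tendsto_avg_shift T C hC x).neg
    simpa using this

omit [MeasurableSpace X] in
lemma upper_iterate (T : X → X) {f : X → ℝ} (C : ℝ) (hC : ∀ x, |f x| ≤ C) (n : ℕ) :
    ∀ x, upper T f (T^[n] x) = upper T f x := by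
  induction n with
  | zero => intro x; rfl
  | succ n ih => intro x; rw [Function.iterate_succ_apply', upper_shift T C hC, ih]

/-- the integral of the upper limit of the averages is at most the integral -/
theorem integral_upper_le [IsProbabilityMeasure μ] {T : X → X} (hT : MeasurePreserving T μ μ)
    {f : X → ℝ} (hf : Measurable f) (C : ℝ) (hC : ∀ x, |f x| ≤ C) :
    ∫ x, upper T f x ∂μ ≤ ∫ x, f x ∂μ := by
  refine le_of_forall_pos_le_add fun ε hε => ?_
  have hmu := measurable_upper hT.measurable hf
  have hif := integrable_of_bdd (μ := μ) hf C hC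
  have hiu := integrable_of_bdd (μ := μ) hmu C (abs_upper_le T C hC)
  have key := integral_nonneg_of_sum_pos hT (f := fun x => f x - upper T f x + ε)
    ((hf.sub hmu).add measurable_const) (C + C + ε) (fun x => ?_) (fun x => ?_)
  · have hsub : Integrable (fun x => f x - upper T f x) μ := hif.sub hiu
    rw [integral_add hsub (integrable_const _), integral_sub hif hiu] at key
    simp only [integral_const, probReal_univ, smul_eq_mul, one_mul] at key
    linarith
  · have h1 := abs_le.1 (hC x)
    have h2 := abs_le.1 (abs_upper_le T C hC x)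
    rw [abs_le]; constructor <;> linarith
  · have h1 : ∃ᶠ N in atTop, upper T f x - ε < avg T f x N :=
      frequently_lt_of_lt_limsup (bddBelow_avg T C hC x).isCoboundedUnder_le (by
        change upper T f x - ε < upper T f x
        linarith)
    obtain ⟨N, hN, hN1⟩ := (h1.and_eventually (eventually_ge_atTop 1)).exists
    refine ⟨N, ?_⟩
    have hN' : (0 : ℝ) < N := by exact_mod_cast hN1
    simp_rw [upper_iterate T C hC]
    rw [sum_add_distrib, sum_sub_distrib]
    simp only [sum_const, card_range, nsmul_eq_mul]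
    rw [avg, lt_inv_mul_iff₀ hN'] at hN
    linarith

/-- Birkhoff theorem for bounded real functions -/
theorem birkhoff_real [IsProbabilityMeasure μ] {T : X → X} (hT : MeasurePreserving T μ μ)
    {f : X → ℝ} (hf : Measurable f) (C : ℝ) (hC : ∀ x, |f x| ≤ C) :
    ∀ᵐ x ∂μ, ∃ L, Tendsto (avg T f x) atTop (𝓝 L) := by
  have hC' : ∀ x, |(-f) x| ≤ C := fun x => by simpa using hC x
  have h1 := integral_upper_le hT hf C hC
  have h2 := integral_upper_le hT hf.neg C hC'
  have hmu := measurable_upper hT.measurable hf
  have hmu' := measurable_upper hT.measurable hf.neg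
  have hiu := integrable_of_bdd (μ := μ) hmu C (abs_upper_le T C hC)
  have hiu' := integrable_of_bdd (μ := μ) hmu' C (abs_upper_le T C hC')
  have hneg : ∀ x N, avg T (-f) x N = -avg T f x N := fun x N => by simp [avg]
  have hlow : ∀ x, upper T (-f) x = -liminf (avg T f x) atTop := by
    intro x
    have : avg T (-f) x = -avg T f x := funext (hneg x)
    rw [upper, this]
    have h := (OrderIso.neg ℝ).liminf_apply (f := atTop) (u := avg T f x)
      (bddBelow_avg T C hC x) (bddAbove_avg T C hC x).isCoboundedUnder_ge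
      (by
        have := bddAbove_avg T C hC' x
        rw [show avg T (-f) x = fun N => -avg T f x N from funext (hneg x)] at this
        exact this)
      (by
        have := (bddBelow_avg T C hC' x).isCoboundedUnder_le
        rw [show avg T (-f) x = fun N => -avg T f x N from funext (hneg x)] at this
        exact this)
    exact h.symm
  have hnn : ∀ x, 0 ≤ upper T f x + upper T (-f) x := by
    intro x
    rw [hlow]
    have := liminf_le_limsup (bddAbove_avg T C hC x) (bddBelow_avg T C hC x)
    change 0 ≤ limsup (avg T f x) atTop + _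
    linarith
  have hz : ∫ x, (upper T f x + upper T (-f) x) ∂μ = 0 := by
    apply le_antisymm _ (integral_nonneg hnn)
    rw [integral_add hiu hiu']
    have : ∫ x, (-f) x ∂μ = -∫ x, f x ∂μ := by simp [integral_neg]
    linarith
  have := (integral_eq_zero_iff_of_nonneg hnn (hiu.add hiu')).1 hz
  filter_upwards [this] with x hx
  refine ⟨limsup (avg T f x) atTop, ?_⟩
  refine tendsto_of_liminf_eq_limsup ?_ rfl (bddAbove_avg T C hC x) (bddBelow_avg T C hC x)
  have h3 : upper T f x + upper T (-f) x = 0 := hx
  rw [hlow] at h3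
  change limsup (avg T f x) atTop + _ = 0 at h3
  linarith

/-- Birkhoff theorem for bounded complex functions -/
theorem birkhoff_complex [IsProbabilityMeasure μ] {T : X → X} (hT : MeasurePreserving T μ μ)
    {f : X → ℂ} (hf : Measurable f) (C : ℝ) (hC : ∀ x, ‖f x‖ ≤ C) :
    ∀ᵐ x ∂μ, ∃ L, Tendsto (fun N : ℕ => (N : ℂ)⁻¹ * ∑ n ∈ range N, f (T^[n] x)) atTop (𝓝 L) := by
  have h1 := birkhoff_real hT (f := fun x => (f x).re) (Complex.measurable_re.comp hf) C
    fun x => le_trans (Complex.abs_re_le_norm _) (hC x)
  have h2 := birkhoff_real hT (f := fun x => (f x).im) (Complex.measurable_im.comp hf) C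
    fun x => le_trans (Complex.abs_im_le_norm _) (hC x)
  filter_upwards [h1, h2] with x ⟨a, ha⟩ ⟨b, hb⟩
  refine ⟨a + b * Complex.I, ?_⟩
  have h3 := ((Complex.continuous_ofReal.tendsto a).comp ha).add
    (((Complex.continuous_ofReal.tendsto b).comp hb).mul_const Complex.I)
  refine h3.congr fun N => ?_
  simp only [Function.comp_apply, avg]
  push_cast
  rw [mul_assoc, ← mul_add, sum_mul, ← sum_add_distrib]
  congr 1
  exact sum_congr rfl fun n _ => Complex.re_add_im _

end Pool.Agent.Shared.Ergodic
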