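import Pool.Agent.Shared.Ergodic.Birkhoff

/-!
The ergodic decomposition of an invariant probability measure on a standard Borel space.
-/

set_option autoImplicit false

open MeasureTheory Filter Topology Set ProbabilityTheory
open scoped ENNReal symmDiff

namespace Pool.Agent.Shared.Ergodic

/-- two families of measures which agree almost everywhere on each set agree almost everywhere -/
lemma ae_measure_ext {Y Z : Type*} [MeasurableSpace Y] [mZ : MeasurableSpace Z]
    [MeasurableSpace.CountablyGenerated Z] (σ : Measure Y)
    (a b : Y → Measure Z) (hfin : ∀ᵐ t ∂σ, a t univ ≠ ∞)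
    (h : ∀ A, MeasurableSet A → ∀ᵐ t ∂σ, a t A = b t A) : ∀ᵐ t ∂σ, a t = b t := by
  let C := generateSetAlgebra (MeasurableSpace.countableGeneratingSet Z)
  have hC : C.Countable :=
    countable_generateSetAlgebra MeasurableSpace.countable_countableGeneratingSet
  have hgen : mZ = MeasurableSpace.generateFrom C := by
    rw [generateFrom_generateSetAlgebra_eq, MeasurableSpace.generateFrom_countableGeneratingSet]
  have hall : ∀ᵐ t ∂σ, ∀ A ∈ C, a t A = b t A := by
    rw [ae_ball_iff hC]
    intro A hA
    exact h A (hgen.ge A (MeasurableSpace.measurableSet_generateFrom hA))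
  filter_upwards [hall, hfin, h univ MeasurableSet.univ] with t ht hf hu
  have : IsFiniteMeasure (a t) := ⟨hf.lt_top⟩
  exact ext_of_generate_finite C hgen
    isSetAlgebra_generateSetAlgebra.isSetRing.isSetSemiring.isPiSystem ht hu

/-- ergodicity from constant Birkhoff limits on a measure dense family -/
lemma ergodic_of_dense {Y : Type*} [MeasurableSpace Y] {κ : Measure Y} [IsProbabilityMeasure κ]
    {S : Y → Y} (hS : MeasurePreserving S κ κ) {C : Set (Set Y)} (hC : κ.MeasureDense C)
    (h : ∀ A ∈ C, ∃ c : ℝ, ∀ᵐ z ∂κ,
      Tendsto (avg S (A.indicator fun _ => (1 : ℝ)) z) atTop (𝓝 c)) : Ergodic S κ := by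
  refine ⟨hS, ⟨fun B hB hSB => ?_⟩⟩
  have key : ∀ ε > 0, min (κ.real B) (κ.real Bᶜ) ≤ ε := by
    intro ε hε
    obtain ⟨A, hA, hAB⟩ := hC.approx B hB (measure_ne_top _ _) ε hε
    have hAm := hC.measurable A hA
    obtain ⟨c, hc⟩ := h A hA
    have b1 : ∀ (D : Set Y) x, |D.indicator (fun _ => (1 : ℝ)) x| ≤ 1 := fun D x => by
      by_cases hx : x ∈ D <;> simp [hx]
    have hD : MeasurableSet (B ∆ A) := hB.symmDiff hAm
    have hit : ∀ n x, S^[n] x ∈ B ↔ x ∈ B := fun n x => by
      rw [← mem_preimage, Function.IsFixedPt.preimage_iterate hSB n]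
    have m1 : ∀ N, Measurable fun z => |avg S (A.indicator fun _ => (1 : ℝ)) z N -
        B.indicator (fun _ => (1 : ℝ)) z| := fun N =>
      ((measurable_avg hS.measurable (measurable_const.indicator hAm) N).sub
        (measurable_const.indicator hB)).abs
    have l1 := tendsto_integral_of_dominated_convergence (μ := κ) (fun _ => 2)
      (f := fun z => |c - B.indicator (fun _ => (1 : ℝ)) z|)
      (fun N => (m1 N).aestronglyMeasurable) (integrable_const _)
      (fun N => Eventually.of_forall fun z => by
        rw [Real.norm_eq_abs, abs_abs]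
        exact (abs_sub _ _).trans (by linarith [abs_avg_le S 1 (b1 A) z N, b1 B z])) (by
        filter_upwards [hc] with z hz
        exact (hz.sub_const _).abs)
    have l2 : ∀ᶠ N : ℕ in atTop, ∫ z, |avg S (A.indicator fun _ => (1 : ℝ)) z N -
        B.indicator (fun _ => (1 : ℝ)) z| ∂κ ≤ ε := by
      filter_upwards [eventually_gt_atTop 0] with N hN
      have hN' : (0 : ℝ) < N := by exact_mod_cast hN
      have i1 : ∀ n, Integrable (fun z => (B ∆ A).indicator (fun _ => (1 : ℝ)) (S^[n] z)) κ :=
        fun n => integrable_of_bdd ((measurable_const.indicator hD).comp (hS.measurable.iterate n))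
          1 fun z => b1 _ _
      have e1 : ∀ n, ∫ z, (B ∆ A).indicator (fun _ => (1 : ℝ)) (S^[n] z) ∂κ = κ.real (B ∆ A) := by
        intro n
        rw [← integral_map (hS.measurable.iterate n).aemeasurable
          (measurable_const.indicator hD).aestronglyMeasurable, (hS.iterate n).map_eq,
          integral_indicator hD]
        simp
      calc _ ≤ ∫ z, avg S ((B ∆ A).indicator fun _ => (1 : ℝ)) z N ∂κ := by
            refine integral_mono_of_nonneg (Eventually.of_forall fun z => abs_nonneg _)
              ((integrable_finsetSum _ fun n _ => i1 n).const_mul _)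
              (Eventually.of_forall fun z => ?_)
            have : avg S (A.indicator fun _ => (1 : ℝ)) z N - B.indicator (fun _ => (1 : ℝ)) z =
                (N : ℝ)⁻¹ * ∑ n ∈ Finset.range N, (A.indicator (fun _ => (1 : ℝ)) (S^[n] z) -
                  B.indicator (fun _ => (1 : ℝ)) z) := by
              rw [Finset.sum_sub_distrib, mul_sub, avg]
              simp [hN'.ne']
            simp only
            rw [this, abs_mul, abs_of_pos (inv_pos.2 hN'), avg]
            refine mul_le_mul_of_nonneg_left ((Finset.abs_sum_le_sum_abs _ _).trans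
              (Finset.sum_le_sum fun n _ => ?_)) (inv_pos.2 hN').le
            by_cases h1 : S^[n] z ∈ A <;> by_cases h2 : z ∈ B <;>
              simp [h1, h2, indicator, mem_symmDiff, hit]
        _ = κ.real (B ∆ A) := by
            simp only [avg]
            rw [integral_const_mul, integral_finsetSum _ fun n _ => i1 n]
            simp [e1, hN'.ne']
        _ ≤ ε := ENNReal.toReal_le_of_le_ofReal hε.le hAB.le
    have l3 := le_of_tendsto l1 l2
    refine le_trans ?_ l3
    have e : (fun z => |c - B.indicator (fun _ => (1 : ℝ)) z|) =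
        fun z => B.indicator (fun _ => |c - 1|) z + Bᶜ.indicator (fun _ => |c|) z := by
      funext z; by_cases hz : z ∈ B <;> simp [hz]
    rw [e, integral_add ((integrable_const _).indicator hB) ((integrable_const _).indicator hB.compl),
      integral_indicator hB, integral_indicator hB.compl, setIntegral_const, setIntegral_const,
      smul_eq_mul, smul_eq_mul]
    have h1 : 1 ≤ |c - 1| + |c| := by
      have := abs_sub c (c - 1)
      rw [sub_sub_cancel, abs_one] at this
      linarith
    have h2 := min_le_left (κ.real B) (κ.real Bᶜ)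
    have h3 := min_le_right (κ.real B) (κ.real Bᶜ)
    have h4 : 0 ≤ min (κ.real B) (κ.real Bᶜ) := le_min measureReal_nonneg measureReal_nonneg
    nlinarith [abs_nonneg (c - 1), abs_nonneg c]
  have h0 : min (κ.real B) (κ.real Bᶜ) ≤ 0 := le_of_forall_pos_le_add fun ε hε => by
    simpa using key ε hε
  rw [eventuallyConst_set]
  rcases min_le_iff.1 h0 with h | h
  · right
    exact measure_eq_zero_iff_ae_notMem.1
      ((measureReal_eq_zero_iff (measure_ne_top _ _)).1 (le_antisymm h measureReal_nonneg))
  · left
    have := measure_eq_zero_iff_ae_notMem.1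
      ((measureReal_eq_zero_iff (measure_ne_top _ _)).1 (le_antisymm h measureReal_nonneg))
    simpa using this

/-- The ergodic decomposition. -/
theorem ergodic_decomposition {Y : Type*} [mY : MeasurableSpace Y] [StandardBorelSpace Y]
    (ν : Measure Y) [IsProbabilityMeasure ν] {S : Y → Y} (hS : MeasurePreserving S ν ν) :
    ∃ κ : Y → Measure Y, (∀ y, IsProbabilityMeasure (κ y)) ∧ (∀ᵐ y ∂ν, Ergodic S (κ y)) ∧
      ∀ f : Y → ℂ, Integrable f ν → AEStronglyMeasurable (fun y => ∫ z, f z ∂κ y) ν ∧
        ∫ y, ∫ z, f z ∂κ y ∂ν = ∫ z, f z ∂ν := by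
  have hm := MeasurableSpace.invariants_le S
  refine ⟨fun y => condExpKernel ν (MeasurableSpace.invariants S) y, fun y => inferInstance, ?_,
    fun f hf => ?_⟩
  swap
  · have h := condExp_ae_eq_integral_condExpKernel hm hf
    refine ⟨(stronglyMeasurable_condExp.mono hm).aestronglyMeasurable.congr h, ?_⟩
    rw [← integral_congr_ae h, integral_condExp hm]
  have hcp := compProd_trim_condExpKernel (μ := ν) hm
  have hdiag : @Measurable Y (Y × Y) mY ((MeasurableSpace.invariants S).prod mY) Function.diag :=
    Measurable.prodMk (f := id) (g := id) (measurable_id'' hm) measurable_id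
  have hinv : ∀ᵐ y ∂ν, (condExpKernel ν (MeasurableSpace.invariants S) y).map S =
      condExpKernel ν (MeasurableSpace.invariants S) y := by
    refine ae_measure_ext ν _ _ (Eventually.of_forall fun y => measure_ne_top _ _) fun A hA => ?_
    simp only [Measure.map_apply hS.measurable hA]
    refine ae_of_ae_trim hm (ae_eq_of_forall_setLIntegral_eq_of_sigmaFinite
      (measurable_condExpKernel (hS.measurable hA)) (measurable_condExpKernel hA)
      fun B hB _ => ?_)
    rw [← Measure.compProd_apply_prod hB hA, ← Measure.compProd_apply_prod hB (hS.measurable hA),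
      hcp, Measure.map_apply hdiag (hB.prod hA),
      Measure.map_apply hdiag (hB.prod (hS.measurable hA))]
    have e1 : Function.diag ⁻¹' (B ×ˢ A) = B ∩ A := rfl
    have e2 : Function.diag ⁻¹' (B ×ˢ (S ⁻¹' A)) = S ⁻¹' (B ∩ A) := by
      rw [preimage_inter, hB.2]; rfl
    rw [e1, e2, hS.measure_preimage (hB.1.inter hA).nullMeasurableSet]
  let C := generateSetAlgebra (MeasurableSpace.countableGeneratingSet Y)
  have hC : C.Countable :=
    countable_generateSetAlgebra MeasurableSpace.countable_countableGeneratingSet
  have hgen : mY = MeasurableSpace.generateFrom C := by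
    rw [generateFrom_generateSetAlgebra_eq, MeasurableSpace.generateFrom_countableGeneratingSet]
  have hall : ∀ᵐ y ∂ν, ∀ A ∈ C, ∃ c : ℝ, ∀ᵐ z ∂(condExpKernel ν (MeasurableSpace.invariants S) y),
      Tendsto (avg S (A.indicator fun _ => (1 : ℝ)) z) atTop (𝓝 c) := by
    rw [ae_ball_iff hC]
    intro A hA
    have hAm : MeasurableSet A := hgen.ge A (MeasurableSpace.measurableSet_generateFrom hA)
    have b1 : ∀ x, |A.indicator (fun _ => (1 : ℝ)) x| ≤ 1 := fun x => by
      by_cases hx : x ∈ A <;> simp [hx]
    have mA : Measurable (A.indicator fun _ => (1 : ℝ)) := measurable_const.indicator hAm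
    have mu := measurable_upper hS.measurable mA
    have mu' : Measurable[MeasurableSpace.invariants S] (upper S (A.indicator fun _ => (1 : ℝ))) :=
      MeasurableSpace.measurable_invariants_dom.2 ⟨mu, fun s _ => by
        congr 1; funext x; exact upper_shift S 1 b1 x⟩
    have h1 : ∀ᵐ z ∂ν, Tendsto (avg S (A.indicator fun _ => (1 : ℝ)) z) atTop
        (𝓝 (upper S (A.indicator fun _ => (1 : ℝ)) z)) := by
      filter_upwards [birkhoff_real hS mA 1 b1] with z ⟨L, hL⟩
      rw [upper, hL.limsup_eq]; exact hL
    rw [← condExpKernel_comp_trim (μ := ν) hm] at h1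
    have h2 := ae_of_ae_trim hm (Measure.ae_ae_of_ae_comp h1)
    have h3 : ∀ᵐ p ∂((ν.trim hm) ⊗ₘ condExpKernel ν (MeasurableSpace.invariants S)),
        upper S (A.indicator fun _ => (1 : ℝ)) p.2 = upper S (A.indicator fun _ => (1 : ℝ)) p.1 := by
      rw [hcp]
      have hmeas : MeasurableSet[(MeasurableSpace.invariants S).prod mY]
          {p : Y × Y | upper S (A.indicator fun _ => (1 : ℝ)) p.2 =
            upper S (A.indicator fun _ => (1 : ℝ)) p.1} :=
        measurableSet_eq_fun (mu.comp (@measurable_snd Y Y (MeasurableSpace.invariants S) mY))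
          (mu'.comp (@measurable_fst Y Y (MeasurableSpace.invariants S) mY))
      rw [ae_iff, ← compl_ofPred, Measure.map_apply hdiag hmeas.compl]
      have : Function.diag ⁻¹' {p : Y × Y | upper S (A.indicator fun _ => (1 : ℝ)) p.2 =
            upper S (A.indicator fun _ => (1 : ℝ)) p.1}ᶜ = ∅ := by
        ext y; simp [Function.diag]
      rw [this, measure_empty]
    have h4 := ae_of_ae_trim hm (Measure.ae_ae_of_ae_compProd h3)
    filter_upwards [h2, h4] with y hy hy'
    refine ⟨upper S (A.indicator fun _ => (1 : ℝ)) y, ?_⟩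
    filter_upwards [hy, hy'] with z hz hz'
    rwa [hz'] at hz
  filter_upwards [hinv, hall] with y hy hy'
  exact ergodic_of_dense ⟨hS.measurable, hy⟩
    (Measure.MeasureDense.of_generateFrom_isSetAlgebra_finite _ isSetAlgebra_generateSetAlgebra hgen)
    hy'

end Pool.Agent.Shared.Ergodic
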