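import Mathlib

/-!
The theorem of Herglotz on the circle, the lemma of Wiener, and the splitting of a square
integrable function into eigenfunctions and a weakly mixing part.
-/

set_option autoImplicit false

open MeasureTheory Filter Topology Finset ComplexConjugate
open scoped NNReal ENNReal

namespace Pool.Agent.Shared.Ergodic

lemma norm_fourier' (a : ℤ) (s : UnitAddCircle) : ‖fourier a s‖ = 1 := by
  rw [fourier_apply]; exact Circle.norm_coe _

lemma fourier_sub_pt (a : ℤ) (s t : UnitAddCircle) :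
    fourier a (s - t) = fourier a s * fourier (-a) t := by
  simp only [fourier_apply, sub_eq_add_neg, smul_add, smul_neg, neg_smul, AddCircle.toCircle_add,
    Circle.coe_mul]

lemma fourier_nat_eq_pow (a : ℕ) (s : UnitAddCircle) : fourier (a : ℤ) s = fourier 1 s ^ a := by
  induction a with
  | zero => simp
  | succ a ih => rw [pow_succ, ← ih, ← fourier_add]; push_cast; rfl

lemma integral_fourier' (k : ℤ) :
    ∫ s : UnitAddCircle, fourier k s = if k = 0 then 1 else 0 := by
  split_ifs with h
  · subst h; simp [Measure.real]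
  · exact integral_eq_zero_of_add_right_eq_neg (μ := volume)
      (fourier_add_half_inv_index h one_pos)

lemma integrable_fourier' (σ : Measure UnitAddCircle) [IsFiniteMeasure σ] (k : ℤ) :
    Integrable (fourier k : UnitAddCircle → ℂ) σ :=
  Integrable.of_bound (fourier k).continuous.aestronglyMeasurable 1
    (Eventually.of_forall fun s => (norm_fourier' k s).le)

/-- normalised Dirichlet kernel -/
noncomputable def dir (H : ℕ) (s : UnitAddCircle) : ℂ :=
  (H : ℂ)⁻¹ * ∑ a ∈ range H, fourier (a : ℤ) s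

lemma continuous_dir (H : ℕ) : Continuous (dir H) := by unfold dir; fun_prop

lemma norm_dir_le (H : ℕ) (t : UnitAddCircle) : ‖dir H t‖ ≤ 1 := by
  rw [dir, norm_mul, norm_inv, Complex.norm_natCast]
  have : ‖∑ a ∈ range H, fourier (a : ℤ) t‖ ≤ H := (norm_sum_le _ _).trans (by simp)
  exact inv_mul_le_one_of_le₀ this (Nat.cast_nonneg _)

lemma tendsto_dir (s : UnitAddCircle) :
    Tendsto (fun H : ℕ => dir H s) atTop (𝓝 (if s = 0 then 1 else 0)) := by
  unfold dir
  split_ifs with hs
  · subst hs
    refine tendsto_const_nhds.congr' ?_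
    filter_upwards [eventually_gt_atTop 0] with H hH
    have : (H : ℂ) ≠ 0 := by exact_mod_cast hH.ne'
    simp [this]
  · have hne : fourier 1 s ≠ 1 := by
      rw [fourier_one]
      intro h
      apply hs
      apply AddCircle.injective_toCircle (one_ne_zero)
      rw [AddCircle.toCircle_zero]
      exact Circle.ext h
    simp only [fourier_nat_eq_pow, geom_sum_eq hne]
    refine squeeze_zero_norm (a := fun H : ℕ => (H : ℝ)⁻¹ * (2 / ‖fourier 1 s - 1‖)) (fun H => ?_) ?_
    · rw [norm_mul, norm_inv, Complex.norm_natCast, norm_div]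
      gcongr
      refine (norm_sub_le _ _).trans ?_
      rw [norm_pow, norm_fourier']; norm_num
    · simpa using tendsto_inv_atTop_nhds_zero_nat.mul_const (2 / ‖fourier 1 s - 1‖)

variable {E : Type*} [NormedAddCommGroup E] [InnerProductSpace ℂ E]

/-- The theorem of Herglotz for a stationary sequence of vectors. -/
theorem herglotz_vec (v : ℕ → E)
    (hv : ∀ m b, inner ℂ (v b) (v (b + m)) = inner ℂ (v 0) (v m)) :
    ∃ σ : Measure UnitAddCircle, IsFiniteMeasure σ ∧
      ∀ m : ℕ, ∫ s, fourier (m : ℤ) s ∂σ = inner ℂ (v 0) (v m) := by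
  let w : ℕ → UnitAddCircle → ℝ := fun N s =>
    (N : ℝ)⁻¹ * ‖∑ n ∈ range N, fourier (-(n : ℤ)) s • v n‖ ^ 2
  have hw0 : ∀ N s, 0 ≤ w N s := fun N s => by positivity
  have ew : ∀ N s, (w N s : ℂ) = (N : ℂ)⁻¹ *
      ∑ b ∈ range N, ∑ a ∈ range N, inner ℂ (v b) (v a) * fourier ((b : ℤ) - a) s := by
    intro N s
    simp only [w]
    push_cast
    congr 1
    have := inner_self_eq_norm_sq_to_K (𝕜 := ℂ) (∑ n ∈ range N, fourier (-(n : ℤ)) s • v n)
    refine this.symm.trans ?_
    rw [sum_inner]
    refine sum_congr rfl fun b _ => ?_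
    rw [inner_sum]
    refine sum_congr rfl fun a _ => ?_
    rw [inner_smul_left, inner_smul_right, sub_eq_add_neg, fourier_add, fourier_neg (n := b),
      Complex.conj_conj]
    ring
  have cw : ∀ N, Continuous (w N) := fun N => by simp only [w]; fun_prop
  have key : ∀ N m : ℕ, ∫ s, fourier (m : ℤ) s ∂(volume.withDensity fun s => ENNReal.ofReal (w N s))
      = (N : ℂ)⁻¹ * ((N - m : ℕ) : ℂ) * inner ℂ (v 0) (v m) := by
    intro N m
    rw [integral_withDensity_eq_integral_toReal_smul (cw N).measurable.ennreal_ofReal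
      (Eventually.of_forall fun s => ENNReal.ofReal_lt_top)]
    simp only [ENNReal.toReal_ofReal (hw0 _ _), Complex.real_smul, ew, mul_assoc, sum_mul,
      ← fourier_add]
    rw [integral_const_mul, integral_finsetSum _ fun b _ =>
      integrable_finsetSum _ fun a _ => (integrable_fourier' _ _).const_mul _]
    congr 1
    have : ∀ b ∈ range N, ∫ s : UnitAddCircle, ∑ a ∈ range N,
        inner ℂ (v b) (v a) * fourier ((b : ℤ) - a + m) s =
        if b + m < N then inner ℂ (v 0) (v m) else 0 := by
      intro b _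
      rw [integral_finsetSum _ fun a _ => (integrable_fourier' _ _).const_mul _]
      have : ∀ a : ℕ, ((b : ℤ) - a + m = 0) ↔ a = b + m := fun a => by omega
      simp only [integral_const_mul, integral_fourier', this, mul_ite, mul_one, mul_zero,
        sum_ite_eq', mem_range, hv]
    rw [sum_congr rfl this, ← sum_filter, sum_const, nsmul_eq_mul]
    congr 2
    have : filter (fun b => b + m < N) (range N) = range (N - m) := by
      ext b; simp only [mem_filter, mem_range]; omega
    rw [this, card_range]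
  have fin : ∀ N, IsFiniteMeasure (volume.withDensity fun s => ENNReal.ofReal (w N s)) := fun N =>
    isFiniteMeasure_withDensity_ofReal ((cw N).integrable_of_hasCompactSupport
      (HasCompactSupport.of_compactSpace _)).2
  let ν : ℕ → FiniteMeasure UnitAddCircle := fun N => ⟨_, fin N⟩
  have hν : ∀ N, (ν N).mass ≤ ‖inner ℂ (v 0) (v 0)‖₊ := by
    intro N
    have h := key N 0
    simp only [Nat.cast_zero, fourier_zero, integral_const, Complex.real_smul, mul_one,
      Nat.sub_zero] at h
    have h2 := congrArg norm h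
    rw [Complex.norm_real, Real.norm_eq_abs, abs_of_nonneg measureReal_nonneg, norm_mul, norm_mul,
      norm_inv, Complex.norm_natCast] at h2
    have h3 : (N : ℝ)⁻¹ * N ≤ 1 := inv_mul_le_one_of_le₀ le_rfl (Nat.cast_nonneg _)
    have h4 : ((ν N).mass : ℝ) ≤ ‖inner ℂ (v 0) (v 0)‖ := by
      change Measure.real _ _ ≤ _
      exact h2.trans_le (mul_le_of_le_one_left (norm_nonneg _) h3)
    exact_mod_cast h4
  obtain ⟨σ, -, hσ⟩ := (isCompact_setOfPred_finiteMeasure_le_of_compactSpace UnitAddCircle
    _).ultrafilter_le_nhds' ((hyperfilter ℕ).map ν) (Ultrafilter.mem_map.2 (univ_mem' hν))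
  refine ⟨σ, inferInstance, fun m => ?_⟩
  have h1 := (FiniteMeasure.tendsto_iff_forall_integral_rclike_tendsto ℂ).1 hσ
    (BoundedContinuousFunction.mkOfCompact (fourier m))
  have h2 : Tendsto (fun N : ℕ => (N : ℂ)⁻¹ * ((N - m : ℕ) : ℂ) * inner ℂ (v 0) (v m)) atTop
      (𝓝 (inner ℂ (v 0) (v m))) := by
    have : Tendsto (fun N : ℕ => (1 - (N : ℂ)⁻¹ * m) * inner ℂ (v 0) (v m)) atTop
        (𝓝 ((1 - 0 * m) * inner ℂ (v 0) (v m))) :=
      ((tendsto_inv_atTop_nhds_zero_nat.mul_const _).const_sub _).mul_const _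
    rw [zero_mul, sub_zero, one_mul] at this
    refine this.congr' ?_
    filter_upwards [eventually_ge_atTop m, eventually_gt_atTop 0] with N h h'
    have : (N : ℂ) ≠ 0 := by exact_mod_cast h'.ne'
    rw [Nat.cast_sub h]; field_simp
  simp only [← key] at h2
  exact tendsto_nhds_unique h1 (h2.mono_left Nat.hyperfilter_le_atTop)

/-- The lemma of Wiener -/
theorem wiener (σ : Measure UnitAddCircle) [IsFiniteMeasure σ] (hσ : ∀ s, σ {s} = 0) :
    Tendsto (fun H : ℕ => ((H : ℝ) ^ 2)⁻¹ * ∑ h ∈ range H, ∑ k ∈ range H,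
      ‖∫ s, fourier ((h : ℤ) - k) s ∂σ‖) atTop (𝓝 0) := by
  have l1 := tendsto_integral_of_dominated_convergence (μ := σ.prod σ)
    (F := fun H p => dir H (p.1 - p.2) * conj (dir H (p.1 - p.2))) (f := fun _ => 0) (fun _ => 1)
    (fun H => Continuous.aestronglyMeasurable
      (((continuous_dir H).comp (continuous_fst.sub continuous_snd)).mul
        (Complex.continuous_conj.comp ((continuous_dir H).comp
          (continuous_fst.sub continuous_snd))))) (integrable_const _)
    (fun H => Eventually.of_forall fun p => by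
      rw [norm_mul, Complex.norm_conj]
      exact mul_le_one₀ (norm_dir_le _ _) (norm_nonneg _) (norm_dir_le _ _)) (by
      have h0 : (σ.prod σ) {p | p.1 = p.2} = 0 :=
        Measure.measure_prod_null_of_ae_null (measurableSet_eq_fun measurable_fst measurable_snd)
          (Eventually.of_forall fun s => by
            have : Prod.mk s ⁻¹' {p : UnitAddCircle × UnitAddCircle | p.1 = p.2} = {s} := by
              ext t; simp [eq_comm]
            simp only [this, hσ, Pi.zero_apply])
      filter_upwards [measure_eq_zero_iff_ae_notMem.1 h0] with p hp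
      have h1 := tendsto_dir (p.1 - p.2)
      rw [if_neg (sub_ne_zero.2 hp)] at h1
      simpa using h1.mul ((Complex.continuous_conj.tendsto _).comp h1))
  have e : ∀ H : ℕ, ∫ p, dir H (p.1 - p.2) * conj (dir H (p.1 - p.2)) ∂(σ.prod σ) =
      ((((H : ℝ) ^ 2)⁻¹ * ∑ h ∈ range H, ∑ k ∈ range H,
        ‖∫ s, fourier ((h : ℤ) - k) s ∂σ‖ ^ 2 : ℝ) : ℂ) := by
    intro H
    have : ∀ p : UnitAddCircle × UnitAddCircle, dir H (p.1 - p.2) * conj (dir H (p.1 - p.2)) =
        ((H : ℂ) ^ 2)⁻¹ * ∑ h ∈ range H, ∑ k ∈ range H,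
          fourier ((h : ℤ) - k) p.1 * conj (fourier ((h : ℤ) - k) p.2) := by
      intro p
      simp only [dir, map_mul, map_inv₀, map_natCast, map_sum]
      rw [mul_mul_mul_comm, sum_mul_sum, ← mul_inv, ← sq]
      congr 1
      refine sum_congr rfl fun h _ => sum_congr rfl fun k _ => ?_
      rw [← fourier_neg, ← fourier_add, ← fourier_neg, ← fourier_sub_pt, sub_eq_add_neg (h : ℤ)]
    have hi : ∀ m : ℤ, Integrable (fun p : UnitAddCircle × UnitAddCircle =>
        fourier m p.1 * conj (fourier m p.2)) (σ.prod σ) := fun m =>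
      Integrable.of_bound (Continuous.aestronglyMeasurable (by fun_prop)) 1
        (Eventually.of_forall fun p => by simp)
    simp only [this]
    rw [integral_const_mul, integral_finsetSum _ fun h _ => integrable_finsetSum _ fun k _ => hi _]
    push_cast
    congr 1
    refine sum_congr rfl fun h _ => ?_
    rw [integral_finsetSum _ fun k _ => hi _]
    refine sum_congr rfl fun k _ => ?_
    rw [integral_prod_mul (fun s => fourier ((h : ℤ) - k) s)
      (fun s => conj (fourier ((h : ℤ) - k) s)), integral_conj, Complex.mul_conj']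
  simp only [e, integral_zero] at l1
  have l2 := ((Complex.continuous_re.tendsto _).comp l1).sqrt
  simp only [Function.comp_def, Complex.ofReal_re, Complex.zero_re, Real.sqrt_zero] at l2
  refine squeeze_zero (fun H => by positivity) (fun H => Real.le_sqrt_of_sq_le ?_) l2
  rcases Nat.eq_zero_or_pos H with rfl | hH
  · simp
  have hH' : (0 : ℝ) < (H : ℝ) ^ 2 := by positivity
  rw [← sum_product', ← sum_product']
  have := sq_sum_le_card_mul_sum_sq (s := range H ×ˢ range H)
    (f := fun j => ‖∫ s, fourier ((j.1 : ℤ) - j.2) s ∂σ‖)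
  rw [card_product, card_range] at this
  push_cast at this
  rw [mul_pow, sq (_⁻¹), mul_assoc]
  refine mul_le_mul_of_nonneg_left ?_ (by positivity)
  rw [inv_mul_le_iff₀ hH', sq (H : ℝ)]
  exact this

/-- a vector orthogonal to all eigenvectors of an isometry has Cesaro small correlations -/
theorem corr_small [CompleteSpace E] (U : E →ₗᵢ[ℂ] E) (w : E)
    (hw : ∀ (s : UnitAddCircle) (v : E), U v = fourier 1 s • v → inner ℂ w v = 0) :
    Tendsto (fun H : ℕ => ((H : ℝ) ^ 2)⁻¹ * ∑ h ∈ range H, ∑ k ∈ range H,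
      ‖inner ℂ (U^[k] w) (U^[h] w)‖) atTop (𝓝 0) := by
  have hv : ∀ m b, inner ℂ (U^[b] w) (U^[b + m] w) = inner ℂ (U^[0] w) (U^[m] w) := by
    intro m b
    induction b with
    | zero => simp
    | succ b ih =>
      rw [add_right_comm, Function.iterate_succ_apply', Function.iterate_succ_apply',
        U.inner_map_map, ih]
  obtain ⟨σ, hfin, hσ⟩ := herglotz_vec (fun n => U^[n] w) hv
  have hc : ∀ h k : ℕ, ‖inner ℂ (U^[k] w) (U^[h] w)‖ = ‖∫ s, fourier ((h : ℤ) - k) s ∂σ‖ := by
    have aux : ∀ k m : ℕ, inner ℂ (U^[k] w) (U^[k + m] w) =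
        ∫ s, fourier (((k + m : ℕ) : ℤ) - k) s ∂σ := fun k m => by
      rw [hv, ← hσ]; congr 3; push_cast; ring_nf
    intro h k
    rcases le_total k h with hk | hk
    · obtain ⟨m, rfl⟩ := Nat.exists_eq_add_of_le hk
      rw [aux]
    · obtain ⟨m, rfl⟩ := Nat.exists_eq_add_of_le hk
      rw [norm_inner_symm, aux, ← Complex.norm_conj, ← integral_conj]
      simp only [← fourier_neg, neg_sub]
  simp only [hc]
  refine wiener σ fun s => ?_
  let V : E →L[ℂ] E := fourier (-1) s • U.toContinuousLinearMap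
  have hV : ‖V‖ ≤ 1 := by
    refine V.opNorm_le_bound zero_le_one fun x => ?_
    simp [V, norm_smul]
  have hVn : ∀ n : ℕ, V^[n] w = fourier (-(n : ℤ)) s • U^[n] w := by
    intro n
    induction n with
    | zero => simp
    | succ n ih =>
      rw [Function.iterate_succ_apply', ih, Function.iterate_succ_apply', map_smul]
      simp only [V, smul_apply, LinearIsometry.coe_toContinuousLinearMap,
        smul_smul, ← fourier_add]
      congr 3; push_cast; ring
  have l1 := V.tendsto_birkhoffAverage_orthogonalProjection hV w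
  set p := (V.eqLocus (1 : E →L[ℂ] E)).orthogonalProjectionOnto w with hp
  have hp1 : V p = p := p.2
  have hp2 : U p = fourier 1 s • (p : E) := by
    conv_rhs => rw [← hp1]
    simp only [V, smul_apply, LinearIsometry.coe_toContinuousLinearMap,
      smul_smul, ← fourier_add]
    simp
  have l2 := Filter.Tendsto.inner (𝕜 := ℂ) (tendsto_const_nhds (x := w)) l1
  rw [hw s p hp2] at l2
  have e : ∀ N : ℕ, inner ℂ w (birkhoffAverage ℂ V id N w) = ∫ t, dir N (t - s) ∂σ := by
    intro N
    simp only [birkhoffAverage, birkhoffSum, id, hVn, inner_smul_right, inner_sum, dir,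
      fourier_sub_pt]
    rw [integral_const_mul, integral_finsetSum _ fun a _ => (integrable_fourier' _ _).mul_const _]
    congr 1
    refine sum_congr rfl fun a _ => ?_
    rw [integral_mul_const, hσ, mul_comm]
    rfl
  simp only [e] at l2
  have l3 := tendsto_integral_of_dominated_convergence (μ := σ) (F := fun N t => dir N (t - s))
    (f := ({s} : Set UnitAddCircle).indicator fun _ => (1 : ℂ)) (fun _ => 1)
    (fun N => ((continuous_dir N).comp (continuous_sub_right s)).aestronglyMeasurable)
    (integrable_const _) (fun N => Eventually.of_forall fun t => norm_dir_le _ _)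
    (Eventually.of_forall fun t => by
      have := tendsto_dir (t - s)
      by_cases ht : t = s <;> simpa [ht, sub_eq_zero] using this)
  have := tendsto_nhds_unique l3 l2
  rw [integral_indicator (measurableSet_singleton s), setIntegral_const, Complex.real_smul,
    mul_one, Complex.ofReal_eq_zero, measureReal_eq_zero_iff (measure_ne_top _ _)] at this
  exact this

/-- Splitting into eigenfunctions, a weakly mixing part and a small remainder. -/
theorem kron_split {X : Type*} [MeasurableSpace X] {μ : Measure X} {T : X → X}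
    (hT : MeasurePreserving T μ μ) {u : X → ℂ} (hu : Measurable u) (hu2 : MemLp u 2 μ)
    {ε : ℝ} (hε : 0 < ε) :
    ∃ (n : ℕ) (φ : Fin n → X → ℂ) (θ : Fin n → UnitAddCircle) (w r : X → ℂ),
      (∀ i, Measurable (φ i)) ∧ (∀ i, MemLp (φ i) 2 μ) ∧
      (∀ i, ∀ᵐ x ∂μ, φ i (T x) = fourier 1 (θ i) * φ i x) ∧
      Measurable w ∧ MemLp w 2 μ ∧ Measurable r ∧ MemLp r 2 μ ∧
      (∀ x, u x = ∑ i, φ i x + w x + r x) ∧ ∫ x, ‖r x‖ ^ 2 ∂μ ≤ ε ∧
      Tendsto (fun H : ℕ => ((H : ℝ) ^ 2)⁻¹ * ∑ h ∈ range H, ∑ k ∈ range H,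
        ‖∫ x, w (T^[h] x) * conj (w (T^[k] x)) ∂μ‖) atTop (𝓝 0) := by
  let U : Lp ℂ 2 μ →ₗᵢ[ℂ] Lp ℂ 2 μ := Lp.compMeasurePreservingₗᵢ ℂ T hT
  have hU : ∀ v : Lp ℂ 2 μ, (U v : X → ℂ) =ᵐ[μ] fun x => v (T x) := fun v =>
    Lp.coeFn_compMeasurePreserving v hT
  have hUn : ∀ (n : ℕ) (v : Lp ℂ 2 μ), (U^[n] v : X → ℂ) =ᵐ[μ] fun x => v (T^[n] x) := by
    intro n v
    induction n with
    | zero => rfl
    | succ n ih =>
      rw [Function.iterate_succ_apply']
      filter_upwards [hU (U^[n] v), hT.quasiMeasurePreserving.ae ih] with x h1 h2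
      rw [h1, h2, Function.iterate_succ_apply]
  let A : Set (Lp ℂ 2 μ) := {v | ∃ s : UnitAddCircle, U v = fourier 1 s • v}
  let K := (Submodule.span ℂ A).topologicalClosure
  have : CompleteSpace K := (Submodule.isClosed_topologicalClosure _).completeSpace_coe
  let p := K.starProjection (hu2.toLp u)
  let w := hu2.toLp u - p
  have hw : w ∈ Kᗮ := K.sub_starProjection_mem_orthogonal _
  have hp : p ∈ closure (Submodule.span ℂ A : Set (Lp ℂ 2 μ)) := K.starProjection_apply_mem _
  obtain ⟨q, hq, hpq⟩ := Metric.mem_closure_iff.1 hp (√ε) (Real.sqrt_pos.2 hε)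
  obtain ⟨n, c, g, hg⟩ := Submodule.mem_span_set'.1 hq
  choose θ hθ using fun i => (g i).2
  let φ : Fin n → Lp ℂ 2 μ := fun i => c i • (g i : Lp ℂ 2 μ)
  have mφ : ∀ i, Measurable (φ i) := fun i => (Lp.stronglyMeasurable _).measurable
  have mw : Measurable w := (Lp.stronglyMeasurable _).measurable
  have er : (fun x => u x - ∑ i, φ i x - w x) =ᵐ[μ] (p - q : Lp ℂ 2 μ) := by
    filter_upwards [Lp.coeFn_sub p q, Lp.coeFn_sub (hu2.toLp u) p, hu2.coeFn_toLp,
      Lp.coeFn_finsetSum univ φ] with x h1 h2 h3 h4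
    rw [h1, Pi.sub_apply, ← hg, h4, Finset.sum_apply]
    simp only [w, h2, Pi.sub_apply, h3]
    ring
  refine ⟨n, fun i => φ i, θ, w, fun x => u x - ∑ i, φ i x - w x, mφ, fun i => Lp.memLp _,
    fun i => ?_, mw, Lp.memLp _, (hu.sub (Finset.measurable_sum _ fun i _ => mφ i)).sub mw,
    (Lp.memLp (p - q)).ae_eq er.symm, fun x => by ring, ?_, ?_⟩
  · have : U (φ i) = fourier 1 (θ i) • φ i := by
      simp only [φ, map_smul, hθ, smul_comm (c i)]
    filter_upwards [hU (φ i), Lp.coeFn_smul (fourier 1 (θ i)) (φ i)] with x h1 h2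
    rw [← h1, this, h2, Pi.smul_apply, smul_eq_mul]
  · have e : ∫ x, ‖u x - ∑ i, φ i x - w x‖ ^ 2 ∂μ = ‖p - q‖ ^ 2 := by
      rw [← inner_self_eq_norm_sq (𝕜 := ℂ), L2.inner_def, ← integral_re (L2.integrable_inner _ _)]
      refine integral_congr_ae ?_
      filter_upwards [er] with x hx
      rw [inner_self_eq_norm_sq, hx]
    rw [e, ← dist_eq_norm]
    exact (pow_le_pow_left₀ dist_nonneg hpq.le 2).trans_eq (Real.sq_sqrt hε.le)
  · have := corr_small U w fun s v hv =>
      Submodule.inner_left_of_mem_orthogonal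
        (Submodule.le_topologicalClosure _ (Submodule.subset_span (show v ∈ A from ⟨s, hv⟩))) hw
    refine this.congr fun H => ?_
    congr 1
    refine sum_congr rfl fun h _ => sum_congr rfl fun k _ => ?_
    rw [L2.inner_def]
    congr 1
    refine integral_congr_ae ?_
    filter_upwards [hUn h w, hUn k w] with x h1 h2
    rw [h1, h2]
    simp

end Pool.Agent.Shared.Ergodic
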